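import Pool.Agent.Run7.h823.SG.Pro
import Pool.Agent.Run7.h823.WF.PN

set_option autoImplicit false

/-!
# One-dimensional criteria and windows around linear forms
-/

namespace Pool.Agent.Run7.h823.SG

open Finset
open Pool.Agent.H771R2.Dens (cnt Per cnt_le_card cnt_add Big big_ap exists_exp_small per_ne per_exact)
open Pool.Agent.N24.RW (ProNull)

/-- The one-dimensional condition. -/
def Thin (S : ℤ → Prop) : Prop := ∀ M : ℕ, 0 < M → ∀ ε : ℝ, 0 < ε →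
  ∃ D : ℕ, 0 < D ∧ D.Coprime M ∧ (((fun n : ℤ => (n : ZMod D)) '' {n | S n}).ncard : ℝ) ≤ ε * D

/-- integers which avoid one class modulo all primes of a large set -/
theorem crit0 (S : ℤ → Prop) (Q : ℕ → Prop) (c : ℕ → ℕ) (hQ : Big Q)
    (hS : ∀ n : ℤ, S n → ∀ q, q.Prime → Q q → (n : ZMod q) ≠ (c q : ZMod q)) : Thin S :=
  crit1 S Q c (fun _ r => (r : ZMod 1) = 1) hQ (fun _ _ _ => big_ap isUnit_one)
    (fun n hn q hq hQq hc => absurd hc (hS n hn q hq hQq))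

theorem crit0' (Q : ℕ → Prop) (c : ℕ → ℕ) (hQ : Big Q) (M : ℕ) (hM : 0 < M) (ε : ℝ) (hε : 0 < ε) :
    ∃ T D : ℕ, 0 < D ∧ D.Coprime M ∧
      (((fun n : ℤ => (n : ZMod D)) '' {n : ℤ | ∀ q ≤ T, q.Prime → Q q → (n : ZMod q) ≠ (c q : ZMod q)}).ncard : ℝ) ≤ ε * D := by
  classical
  obtain ⟨F, hF, hFε⟩ := exists_exp_small (hQ.large M) hε
  have hA : Per (fun n => ∀ q ∈ F, n % q ≠ c q % q) (∏ q ∈ F, q)
      (∏ q ∈ F, Real.exp (-(1 / (q : ℝ)))) :=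
    Per.forall F (fun q n => n % q ≠ c q % q) (fun q => q) _
      (fun q hq => per_ne (hF q hq).1.pos _) (fun q _ => (Real.exp_pos _).le)
      (fun q hq q' hq' h => (Nat.coprime_primes (hF q hq).1 (hF q' hq').1).2 h)
  have hA' : (∏ q ∈ F, Real.exp (-(1 / (q : ℝ)))) ≤ ε := by
    rw [← Real.exp_sum, sum_neg_distrib]
    refine le_trans ?_ hFε
    rw [Real.exp_le_exp]
    have : 0 ≤ ∑ q ∈ F, 1 / (q : ℝ) := sum_nonneg fun q _ => by positivity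
    linarith
  obtain ⟨D, hD⟩ : ∃ D : ℕ, D = ∏ q ∈ F, q := ⟨_, rfl⟩
  have hD0 : 0 < D := by
    rw [hD]
    exact prod_pos fun q hq => (hF q hq).1.pos
  have hd1 : ∀ q ∈ F, q ∣ D := fun q hq => by
    rw [hD]
    exact dvd_prod_of_mem _ hq
  have : NeZero D := ⟨hD0.ne'⟩
  refine ⟨F.sup id, D, hD0, ?_, ?_⟩
  · rw [hD]
    exact Nat.Coprime.prod_left fun q hq =>
      ((hF q hq).1.coprime_iff_not_dvd).2 fun h => absurd (Nat.le_of_dvd hM h) (not_le.2 (hF q hq).2.2)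
  have h2 : ((fun n : ℤ => (n : ZMod D)) '' {n : ℤ | ∀ q ≤ F.sup id, q.Prime → Q q → (n : ZMod q) ≠ (c q : ZMod q)}).ncard ≤
      ((range D).filter (fun n => ∀ q ∈ F, n % q ≠ c q % q)).card := by
    rw [← Set.ncard_coe_finset]
    refine Set.ncard_le_ncard_of_injOn (fun x : ZMod D => x.val) ?_ ((ZMod.val_injective D).injOn) (Finset.finite_toSet _)
    rintro _ ⟨n, hn, rfl⟩
    simp only
    obtain ⟨k, hk⟩ : ∃ k : ℕ, k = ((n : ℤ) : ZMod D).val := ⟨_, rfl⟩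
    rw [← hk]
    have hkD : k < D := by rw [hk]; exact ZMod.val_lt _
    have hkn : (D : ℤ) ∣ n - k := by
      rw [← ZMod.intCast_zmod_eq_zero_iff_dvd]
      push_cast
      rw [hk, ZMod.natCast_zmod_val, sub_self]
    rw [mem_coe, mem_filter, mem_range]
    refine ⟨hkD, fun q hq h4 => ?_⟩
    refine hn q (Finset.le_sup (f := id) hq) (hF q hq).1 (hF q hq).2.1 ?_
    have e1 : ((q : ℕ) : ℤ) ∣ n - k := (Int.natCast_dvd_natCast.2 (hd1 q hq)).trans hkn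
    have e3 : ((n : ℤ) : ZMod q) = ((k : ℤ) : ZMod q) := by
      rw [← sub_eq_zero, ← Int.cast_sub, ZMod.intCast_zmod_eq_zero_iff_dvd]
      exact e1
    rw [e3, Int.cast_natCast]
    exact (ZMod.natCast_eq_natCast_iff' _ _ _).2 h4
  have h2' : ((range D).filter (fun n => ∀ q ∈ F, n % q ≠ c q % q)).card = cnt (fun n => ∀ q ∈ F, n % q ≠ c q % q) D := by
    unfold cnt
    congr
  rw [h2'] at h2
  have h3 := per_dvd hA (D := D) (by rw [hD])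
  have h5 := mul_le_mul_of_nonneg_right hA' (Nat.cast_nonneg (α := ℝ) D)
  exact (Nat.cast_le.2 h2).trans (h3.trans h5)

theorem image_mul (A : Set ℤ) (D P : ℕ) (hD : 0 < D) (hP : 0 < P) :
    ((fun n : ℤ => (n : ZMod (D * P))) '' A).ncard ≤ P * ((fun n : ℤ => (n : ZMod D)) '' A).ncard := by
  have : NeZero D := ⟨hD.ne'⟩
  have hDP : 0 < D * P := Nat.mul_pos hD hP
  have : NeZero (D * P) := ⟨hDP.ne'⟩
  have h1 := Pool.Agent.N24.RW.Clo.ncard_preimage ((ZMod.castHom (Dvd.intro P rfl : D ∣ D * P) (ZMod D)).toAddMonoidHom)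
    (ZMod.ringHom_surjective (ZMod.castHom (Dvd.intro P rfl : D ∣ D * P) (ZMod D))) ((fun n : ℤ => (n : ZMod D)) '' A)
  rw [Nat.card_zmod, Nat.card_zmod] at h1
  have h2 : ((fun n : ℤ => (n : ZMod (D * P))) '' A).ncard ≤
      (((ZMod.castHom (Dvd.intro P rfl : D ∣ D * P) (ZMod D)).toAddMonoidHom) ⁻¹' ((fun n : ℤ => (n : ZMod D)) '' A)).ncard := by
    refine Set.ncard_le_ncard ?_ (Set.toFinite _)
    rintro _ ⟨n, hn, rfl⟩
    refine ⟨n, hn, ?_⟩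
    simp
  refine h2.trans ?_
  have h3 : (((ZMod.castHom (Dvd.intro P rfl : D ∣ D * P) (ZMod D)).toAddMonoidHom) ⁻¹' ((fun n : ℤ => (n : ZMod D)) '' A)).ncard * D =
      (P * ((fun n : ℤ => (n : ZMod D)) '' A).ncard) * D := by
    rw [h1]
    ring
  exact (Nat.eq_of_mul_eq_mul_right hD h3).le

/-- nonnegative integers which avoid one class modulo all primes `q ≤ T` of a large set, as soon as they are at least `N(T)` -/
theorem crit2 (S : ℤ → Prop) (Q : ℕ → Prop) (c : ℕ → ℕ) (hQ : Big Q) (hpos : ∀ n : ℤ, S n → 0 ≤ n)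
    (hS : ∀ T : ℕ, ∃ N : ℕ, ∀ n : ℤ, S n → (N : ℤ) ≤ n → ∀ q ≤ T, q.Prime → Q q → (n : ZMod q) ≠ (c q : ZMod q)) : Thin S := by
  intro M hM ε hε
  obtain ⟨T, D, hD, hc, hb⟩ := crit0' Q c hQ M hM (ε / 2) (by positivity)
  obtain ⟨N, hN⟩ := hS T
  obtain ⟨P, hP, hPp⟩ := Nat.exists_infinite_primes (M + ⌈2 * N / ε⌉₊ + 1)
  have hDP : 0 < D * P := Nat.mul_pos hD hPp.pos
  have : NeZero (D * P) := ⟨hDP.ne'⟩
  refine ⟨D * P, hDP, hc.mul_left ((hPp.coprime_iff_not_dvd).2 fun h => absurd (Nat.le_of_dvd hM h) (by omega)), ?_⟩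
  have h1 : ((fun n : ℤ => (n : ZMod (D * P))) '' {n | S n}) ⊆
      ((fun n : ℤ => (n : ZMod (D * P))) '' {n : ℤ | ∀ q ≤ T, q.Prime → Q q → (n : ZMod q) ≠ (c q : ZMod q)}) ∪
      ((fun n : ℤ => (n : ZMod (D * P))) '' (Finset.Ico (0 : ℤ) N : Finset ℤ)) := by
    rintro _ ⟨n, hn, rfl⟩
    by_cases h : (N : ℤ) ≤ n
    · exact Or.inl ⟨n, fun q hq hqp hQq => hN n hn h q hq hqp hQq, rfl⟩
    · exact Or.inr ⟨n, by rw [Finset.mem_coe, Finset.mem_Ico]; exact ⟨hpos n hn, not_le.1 h⟩, rfl⟩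
  have h2 := (Set.ncard_le_ncard h1 (Set.toFinite _)).trans (Set.ncard_union_le _ _)
  have h3 := image_mul {n : ℤ | ∀ q ≤ T, q.Prime → Q q → (n : ZMod q) ≠ (c q : ZMod q)} D P hD hPp.pos
  have h4 : ((fun n : ℤ => (n : ZMod (D * P))) '' (Finset.Ico (0 : ℤ) N : Finset ℤ)).ncard ≤ N := by
    refine (Set.ncard_image_le (Finset.finite_toSet _)).trans ?_
    rw [Set.ncard_coe_finset, Int.card_Ico]
    simp
  have h5 : (((fun n : ℤ => (n : ZMod (D * P))) '' {n | S n}).ncard : ℝ) ≤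
      P * (((fun n : ℤ => (n : ZMod D)) '' {n : ℤ | ∀ q ≤ T, q.Prime → Q q → (n : ZMod q) ≠ (c q : ZMod q)}).ncard : ℝ) + N := by
    exact_mod_cast h2.trans (add_le_add h3 h4)
  have hP0 : (0 : ℝ) < P := by exact_mod_cast hPp.pos
  have h6 : 2 * (N : ℝ) / ε ≤ P := by
    refine (Nat.le_ceil _).trans ?_
    exact_mod_cast (by omega : ⌈2 * (N : ℝ) / ε⌉₊ ≤ P)
  rw [div_le_iff₀ hε] at h6
  have hD1 : (1 : ℝ) ≤ D := by exact_mod_cast hD
  have h7 : (P : ℝ) * (((fun n : ℤ => (n : ZMod D)) '' {n : ℤ | ∀ q ≤ T, q.Prime → Q q → (n : ZMod q) ≠ (c q : ZMod q)}).ncard : ℝ) ≤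
      P * (ε / 2 * D) := mul_le_mul_of_nonneg_left hb hP0.le
  have h8 : (P : ℝ) * ε ≤ P * ε * D := le_mul_of_one_le_right (by positivity) hD1
  push_cast
  nlinarith

/-- Outside of a pronull set no integer near the value of a small linear form is in a thin set. -/
theorem windows {S : ℤ → Prop} (hS : Thin S) (r B : ℕ) : ProNull {c : Fin r → ℤ | ∃ lam : Fin r → ℤ, lam ≠ 0 ∧
    (∀ j, |lam j| ≤ B) ∧ ∃ n : ℤ, |n - ∑ j, lam j * c j| ≤ B ∧ S n} := by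
  obtain ⟨F, hF⟩ : ∃ F : Set ((Fin r → ℤ) × ℤ), F = {a : (Fin r → ℤ) × ℤ | (a.1 ≠ 0 ∧ ∀ j, |a.1 j| ≤ B) ∧
    a.2 ∈ Set.Icc (-(B : ℤ)) B} := ⟨_, rfl⟩
  have hfin : F.Finite := by
    refine ((Pool.Agent.Run7.h823.WF.PN.finite_vec (Fin r) B).prod (Set.finite_Icc (-(B : ℤ)) B)).subset ?_
    rw [hF]
    rintro ⟨a, b⟩ ⟨⟨-, h1⟩, h2⟩
    exact ⟨h1, h2⟩
  have h1 := Pool.Agent.Run7.h823.WF.PN.proNull_union hfin
    (fun a => {c : Fin r → ℤ | S ((∑ j, a.1 j * c j) + a.2)})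
    (fun a ha => by
      rw [hF] at ha
      exact affine hS a.1 ha.1.1 a.2)
  refine Pool.Agent.N24.RW.Clo.mono ?_ h1
  rintro c ⟨lam, hl, hlB, n, hn, hSn⟩
  refine ⟨(lam, n - ∑ j, lam j * c j), ?_, ?_⟩
  · rw [hF]
    exact ⟨⟨hl, hlB⟩, abs_le.1 hn⟩
  · rw [Set.mem_ofPred_eq]
    simp only
    rw [add_sub_cancel]
    exact hSn

end Pool.Agent.Run7.h823.SG
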