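import Pool.Agent.N891.LT.Pro
import Pool.Agent.Run7.h823.WF.PN

/-!
# Prime divisors `p ≡ 1 (mod m)` of the values of polynomials at linear forms: pronull sets, all moduli `m`

`PQm_diverges` is `PQ_diverges` of the starting file `Pool.Agent.N891.LT.Pro`, for all moduli instead of primes.
-/

set_option autoImplicit false

namespace Pool.Agent.Run7.h823.SG

open Finset Polynomial Pool.Agent.N24.RW Pool.Agent.N891.LT

theorem PQm_diverges (h : ℤ[X]) (hd : 0 < h.natDegree) {q : ℕ} (hq : 0 < q) :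
    ¬ Summable ((PQ h q).indicator fun n : ℕ => (1 : ℝ) / n) := by
  classical
  have ha0 : h.leadingCoeff ≠ 0 := by
    rw [Ne, leadingCoeff_eq_zero]
    rintro rfl
    simp at hd
  -- the roots
  have hinjQ : Function.Injective (Int.castRingHom ℂ) := Int.cast_injective
  obtain ⟨θ, hθ⟩ : ∃ θ : ℂ, aeval θ h = 0 := by
    obtain ⟨θ, hθ⟩ := IsAlgClosed.exists_root (h.map (Int.castRingHom ℂ)) (by
      rw [degree_map_eq_of_injective hinjQ]
      intro h0
      rw [degree_eq_natDegree (by rintro rfl; simp at hd)] at h0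
      have : h.natDegree = 0 := by exact_mod_cast h0
      omega)
    refine ⟨θ, ?_⟩
    rw [IsRoot.def, eval_map] at hθ
    rw [aeval_def]
    exact hθ
  obtain ⟨ζ, hζ⟩ : ∃ ζ : ℂ, IsPrimitiveRoot ζ q := ⟨_, Complex.isPrimitiveRoot_exp q hq.ne'⟩
  -- the field
  let K : IntermediateField ℚ ℂ := IntermediateField.adjoin ℚ {θ, ζ}
  have hfin : FiniteDimensional ℚ K := by
    apply IntermediateField.finiteDimensional_adjoin
    intro x hx
    rcases hx with rfl | hx
    · have hne : h.map (Int.castRingHom ℚ) ≠ 0 := by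
        rw [Ne, Polynomial.map_eq_zero_iff Int.cast_injective]
        rintro rfl
        simp at hd
      have halg : IsAlgebraic ℚ x := ⟨h.map (Int.castRingHom ℚ), hne, by
        rw [aeval_def, eval₂_map]
        have e : (algebraMap ℚ ℂ).comp (Int.castRingHom ℚ) = algebraMap ℤ ℂ := RingHom.ext_int _ _
        rw [e, ← aeval_def]
        exact hθ⟩
      exact halg.isIntegral
    · rw [Set.mem_singleton_iff] at hx
      rw [hx]
      exact IsIntegral.of_pow hq (by rw [hζ.pow_eq_one]; exact isIntegral_one)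
  have hnf : NumberField K := { to_charZero := inferInstance, to_finiteDimensional := hfin }
  set θ' : K := ⟨θ, IntermediateField.subset_adjoin _ _ (by simp)⟩ with hθ'
  set ζ' : K := ⟨ζ, IntermediateField.subset_adjoin _ _ (by simp)⟩ with hζ'
  have hθ1 : aeval θ' h = 0 := by
    have hc : algebraMap K ℂ (aeval θ' h) = 0 := by
      rw [← aeval_algebraMap_apply]
      exact hθ
    exact (map_eq_zero_iff _ (algebraMap K ℂ).injective).1 hc
  have hζ1 : IsPrimitiveRoot ζ' q :=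
    IsPrimitiveRoot.of_map_of_injective (f := algebraMap K ℂ) hζ (algebraMap K ℂ).injective
  have hζint : IsIntegral ℤ ζ' :=
    IsIntegral.of_pow hq (by rw [hζ1.pow_eq_one]; exact isIntegral_one)
  have hβint : IsIntegral ℤ (h.leadingCoeff • θ') := isIntegral_leadingCoeff_smul h θ' hθ1
  let z : NumberField.RingOfIntegers K := ⟨ζ', hζint⟩
  let β : NumberField.RingOfIntegers K := ⟨h.leadingCoeff • θ', hβint⟩
  have hzp : IsPrimitiveRoot z q :=
    IsPrimitiveRoot.of_map_of_injective (f := algebraMap (NumberField.RingOfIntegers K) K) hζ1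
      NumberField.RingOfIntegers.coe_injective
  have hz : aeval z (cyclotomic q ℤ) = 0 := by
    have h1 := hzp.isRoot_cyclotomic hq
    rw [← map_cyclotomic_int, IsRoot.def, eval_map] at h1
    rw [aeval_def]
    exact h1
  have hβ : aeval β (scaleRoots h h.leadingCoeff) = 0 := by
    apply NumberField.RingOfIntegers.coe_injective
    rw [← aeval_algebraMap_apply, map_zero]
    have h3 := scaleRoots_aeval_eq_zero (r := h.leadingCoeff) hθ1
    have h4 : (algebraMap (NumberField.RingOfIntegers K) K) β =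
        algebraMap ℤ K h.leadingCoeff * θ' := by
      show (h.leadingCoeff • θ' : K) = _
      rw [Algebra.smul_def]
    rw [h4]
    exact h3
  -- the primes
  have hs := Pool.Agent.Helper932.not_summable_split (K := K)
  have hs' : ¬ Summable ({p : ℕ | p.Prime ∧ Nonempty (NumberField.RingOfIntegers K →+* ZMod p)}.indicator
      fun n : ℕ => (1 : ℝ) / n) := by
    intro h4
    exact hs (summable_subtype_iff_indicator.2 h4)
  refine diverges_of_subset (Set.Iic (q + h.leadingCoeff.natAbs)) (Set.finite_Iic _) ?_ hs'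
  rintro p ⟨hp, ⟨φ⟩⟩
  by_cases hpl : p ≤ q + h.leadingCoeff.natAbs
  · exact Or.inr hpl
  left
  have : Fact p.Prime := ⟨hp⟩
  refine ⟨hp, ?_, ?_⟩
  · have h4 := congrArg φ hz
    rw [map_zero, aeval_def, hom_eval₂] at h4
    have e : φ.comp (algebraMap ℤ (NumberField.RingOfIntegers K)) = Int.castRingHom (ZMod p) :=
      RingHom.ext_int _ _
    rw [e, ← eval_map, map_cyclotomic_int] at h4
    have hq0 : ((q : ℕ) : ZMod p) ≠ 0 := by
      rw [Ne, ZMod.natCast_eq_zero_iff]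
      intro h5
      have := Nat.le_of_dvd hq h5
      omega
    have : NeZero ((q : ℕ) : ZMod p) := ⟨hq0⟩
    have h5 : IsPrimitiveRoot (φ z) q := isRoot_cyclotomic_iff.1 h4
    exact (h5.pow_eq_one_iff_dvd _).1 (ZMod.pow_card_sub_one_eq_one (h5.ne_zero hq.ne'))
  · have hap : ((h.leadingCoeff : ℤ) : ZMod p) ≠ 0 := by
      rw [Ne, ZMod.intCast_zmod_eq_zero_iff_dvd]
      intro hdv
      have := Nat.le_of_dvd (Int.natAbs_pos.2 ha0) (Int.natCast_dvd.1 hdv)
      omega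
    refine ⟨((h.leadingCoeff : ℤ) : ZMod p)⁻¹ * φ β, ?_⟩
    have h4 : eval₂ (Int.castRingHom (ZMod p)) (φ β) (scaleRoots h h.leadingCoeff) = 0 := by
      have h5 := congrArg φ hβ
      rw [map_zero, aeval_def, hom_eval₂] at h5
      have e : φ.comp (algebraMap ℤ (NumberField.RingOfIntegers K)) = Int.castRingHom (ZMod p) :=
        RingHom.ext_int _ _
      rw [e] at h5
      exact h5
    have h6 : φ β = (Int.castRingHom (ZMod p)) h.leadingCoeff *
        (((h.leadingCoeff : ℤ) : ZMod p)⁻¹ * φ β) := by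
      rw [← mul_assoc]
      show _ = (((h.leadingCoeff : ℤ) : ZMod p) * ((h.leadingCoeff : ℤ) : ZMod p)⁻¹) * φ β
      rw [mul_inv_cancel₀ hap, one_mul]
    rw [h6, scaleRoots_eval₂_mul] at h4
    rcases mul_eq_zero.1 h4 with h7 | h7
    · exact absurd (pow_eq_zero_iff (by omega) |>.1 h7) hap
    · exact h7


/-- outside of a pronull set the value `h(ℓ(c))` has a prime divisor `p ≡ 1` modulo `m` -/
theorem dvd_null {ι : Type} [Fintype ι] (lam : ι → ℤ) (hl : lam ≠ 0) (h : ℤ[X]) (hd : 0 < h.natDegree) {m : ℕ} (hm : 0 < m) :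
    ProNull {c : ι → ℤ | ¬ ∃ p : ℕ, p.Prime ∧ m ∣ p - 1 ∧ (p : ℤ) ∣ h.eval (∑ j, lam j * c j)} := by
  classical
  have h1 : ∀ p : ℕ, ∃ t : ZMod p, p ∈ PQ h m → h.eval₂ (Int.castRingHom (ZMod p)) t = 0 := by
    intro p
    by_cases hp : p ∈ PQ h m
    · obtain ⟨-, -, t, ht⟩ := hp
      exact ⟨t, fun _ => ht⟩
    · exact ⟨0, fun h => absurd h hp⟩
  choose t ht using h1
  refine Pool.Agent.N24.RW.Clo.mono ?_ (hit_null lam hl (PQ h m) (fun p hp => hp.1) (PQm_diverges h hd hm) t)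
  intro c hc p hp he
  apply hc
  refine ⟨p, hp.1, hp.2.1, ?_⟩
  have h2 := ht p hp
  have e : ((h.eval (∑ j, lam j * c j) : ℤ) : ZMod p) =
      h.eval₂ (Int.castRingHom (ZMod p)) ((∑ j, lam j * c j : ℤ) : ZMod p) :=
    (eval₂_at_apply (Int.castRingHom (ZMod p)) (∑ j, lam j * c j)).symm
  rw [← ZMod.intCast_zmod_eq_zero_iff_dvd, e, he]
  exact h2

/-- For all linear forms `ℓ ≠ 0` and nonconstant `f` with coefficients and degree at most `B`, every integer `n` with
`|n - f(ℓ(c))| ≤ B` has a prime divisor `p ≡ 1` modulo `m`. -/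
def Div {r : ℕ} (m B : ℕ) (c : Fin r → ℤ) : Prop :=
  ∀ lam : Fin r → ℤ, lam ≠ 0 → (∀ j, |lam j| ≤ B) → ∀ f : ℤ[X], 0 < f.natDegree → (f.natDegree ≤ B ∧ ∀ j, |f.coeff j| ≤ B) →
    ∀ n : ℤ, |n - f.eval (∑ j, lam j * c j)| ≤ B → ∃ p : ℕ, p.Prime ∧ m ∣ p - 1 ∧ (p : ℤ) ∣ n

theorem div_null (r B : ℕ) {m : ℕ} (hm : 0 < m) : ProNull {c : Fin r → ℤ | ¬ Div m B c} := by
  obtain ⟨F, hF⟩ : ∃ F : Set ((Fin r → ℤ) × ℤ[X]), F = {a : (Fin r → ℤ) × ℤ[X] | (a.1 ≠ 0 ∧ ∀ j, |a.1 j| ≤ B) ∧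
    (0 < a.2.natDegree ∧ ∃ f : ℤ[X], (f.natDegree ≤ B ∧ ∀ j, |f.coeff j| ≤ B) ∧ ∃ b ∈ Set.Icc (-(B : ℤ)) B, a.2 = f + C b)} :=
    ⟨_, rfl⟩
  have h1 := Pool.Agent.Run7.h823.WF.PN.finite_poly B
  have hfin : F.Finite := by
    have h2 : (Set.image2 (fun (f : ℤ[X]) (b : ℤ) => f + C b) {P : ℤ[X] | P.natDegree ≤ B ∧ ∀ j, |P.coeff j| ≤ B}
      (Set.Icc (-(B : ℤ)) B)).Finite := Set.Finite.image2 _ h1 (Set.finite_Icc _ _)
    refine ((Pool.Agent.Run7.h823.WF.PN.finite_vec (Fin r) B).prod h2).subset ?_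
    rw [hF]
    rintro ⟨a, f⟩ ⟨⟨-, h4⟩, ⟨-, f', h5, b, h6, h7⟩⟩
    exact ⟨h4, f', h5, b, h6, h7.symm⟩
  have h2 := Pool.Agent.Run7.h823.WF.PN.proNull_union hfin
    (fun a => {c : Fin r → ℤ | ¬ ∃ p : ℕ, p.Prime ∧ m ∣ p - 1 ∧ (p : ℤ) ∣ a.2.eval (∑ j, a.1 j * c j)})
    (fun a ha => by
      rw [hF] at ha
      exact dvd_null a.1 ha.1.1 a.2 ha.2.1 hm)
  refine Pool.Agent.N24.RW.Clo.mono ?_ h2
  intro c hc
  by_contra hcon
  apply hc
  intro lam hl hlB f hf hfB n hn
  by_contra hp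
  obtain ⟨b, hb⟩ : ∃ b : ℤ, b = n - f.eval (∑ j, lam j * c j) := ⟨_, rfl⟩
  refine hcon ⟨(lam, f + C b), ?_, ?_⟩
  · rw [hF]
    refine ⟨⟨hl, hlB⟩, ?_, f, hfB, b, ?_, rfl⟩
    · rw [natDegree_add_C]
      exact hf
    · rw [hb]
      exact abs_le.1 hn
  · have e : (f + C b).eval (∑ j, lam j * c j) = n := by
      rw [eval_add, eval_C, hb]
      ring
    rw [Set.mem_ofPred_eq]
    simp only
    rw [e]
    exact hp

end Pool.Agent.Run7.h823.SG
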