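import Pool.Agent.H771R2.Lander

set_option autoImplicit false
set_option linter.unusedSectionVars false
set_option linter.unusedVariables false

/-!
# Liftable difference sets with Singer parameters: the exclusion

Copied from the starting files `Pool.Agent.R116.AF.Rds`, `Pool.Agent.R116.AF.Div` and `Pool.Agent.R116.AF.DivApp`, without their
imports (only `Pool.Agent.H771R2.Lander` is used).
-/

namespace Pool.Agent.Run7.h823.SG

open AddMonoidAlgebra
open Pool.Agent.H771R2.Lander (st st_single mat nm single_sum' det_mod descent ff one_sub_mul_nm)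

section
open Finset
variable {G : Type} [Group G] [Fintype G] [DecidableEq G]

/-- the number of representations -/
def rep (D : Finset G) (g : G) : ℕ := ((D ×ˢ D).filter (fun p : G × G => p.1 * p.2⁻¹ = g)).card

theorem rep_one (D : Finset G) : rep D 1 = D.card := by
  have : (D ×ˢ D).filter (fun p : G × G => p.1 * p.2⁻¹ = 1) = D.image (fun x => (x, x)) := by
    ext ⟨x, y⟩
    simp only [mem_filter, mem_product, mem_image, Prod.mk.injEq]
    constructor
    · rintro ⟨⟨hx, _⟩, hxy⟩
      exact ⟨x, hx, rfl, mul_inv_eq_one.1 hxy⟩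
    · rintro ⟨a, ha, rfl, rfl⟩
      exact ⟨⟨ha, ha⟩, mul_inv_cancel _⟩
  rw [rep, this, card_image_of_injective _ (fun a b h => (Prod.mk.inj h).1)]

end

theorem mat_mul' {q : ℕ} [NeZero q] {T : Type} [Fintype T] [DecidableEq T]
    (A : T × ZMod q → T × ZMod q → ℤ) (N : ℤ) (R : T → T → ℤ)
    (hA : ∀ x z, ∑ y, A x y * A z y = (if x = z then N else 0) + R x.1 z.1)
    (hinv : ∀ (s t : T) (i j c : ZMod q), A (s, i + c) (t, j + c) = A (s, i) (t, j)) :
    mat A * (((mat A).map (st ℤ q)).transpose) =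
      (N : AddMonoidAlgebra ℤ (ZMod q)) • (1 : Matrix T T (AddMonoidAlgebra ℤ (ZMod q))) +
      nm q • Matrix.of (fun s u => (R s u : AddMonoidAlgebra ℤ (ZMod q))) := by
  funext s u
  have key : ∀ e : ZMod q, ∑ t : T, ∑ c' : ZMod q, A (s, 0) (t, e + c') * A (u, 0) (t, c') =
      (if s = u ∧ e = 0 then N else 0) + R s u := by
    intro e
    have h1 := hA (s, -e) (u, 0)
    rw [Fintype.sum_prod_type] at h1
    have h2 : ((s, -e) = (u, (0 : ZMod q))) ↔ (s = u ∧ e = 0) := by
      rw [Prod.mk.injEq, neg_eq_zero]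
    simp only [h2] at h1
    rw [← h1]
    refine Finset.sum_congr rfl fun t _ => Finset.sum_congr rfl fun c' _ => ?_
    congr 1
    have := hinv s t (-e) c' e
    rw [neg_add_cancel, add_comm c' e] at this
    exact this
  have h3 : (mat A * (((mat A).map (st ℤ q)).transpose)) s u =
      ∑ e : ZMod q, single e ((if s = u ∧ e = 0 then N else 0) + R s u) := by
    rw [Matrix.mul_apply]
    simp only [Matrix.transpose_apply, Matrix.map_apply, mat, map_sum, st_single,
      Finset.sum_mul_sum, single_mul_single]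
    have h4 : ∀ t : T, ∑ c : ZMod q, ∑ c' : ZMod q,
        single (c + -c') (A (s, 0) (t, c) * A (u, 0) (t, c')) =
        ∑ e : ZMod q, single e (∑ c' : ZMod q, A (s, 0) (t, e + c') * A (u, 0) (t, c')) := by
      intro t
      rw [Finset.sum_comm]
      have h5 : ∀ c' : ZMod q, ∑ c : ZMod q,
          (single (c + -c') (A (s, 0) (t, c) * A (u, 0) (t, c')) : AddMonoidAlgebra ℤ (ZMod q)) =
          ∑ e : ZMod q, single e (A (s, 0) (t, e + c') * A (u, 0) (t, c')) := by
        intro c'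
        rw [← Equiv.sum_comp (Equiv.addRight c')]
        refine Finset.sum_congr rfl fun e _ => ?_
        simp
      simp only [h5]
      rw [Finset.sum_comm]
      refine Finset.sum_congr rfl fun e _ => ?_
      rw [single_sum']
    simp only [h4]
    rw [Finset.sum_comm]
    refine Finset.sum_congr rfl fun e _ => ?_
    rw [← key e, single_sum']
  rw [h3]
  simp only [Matrix.add_apply, Matrix.smul_apply, Matrix.one_apply, Matrix.of_apply, smul_eq_mul,
    single_add, Finset.sum_add_distrib]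
  congr 1
  · by_cases hsu : s = u
    · simp only [hsu, true_and, if_true, mul_one]
      rw [Finset.sum_eq_single (0 : ZMod q)]
      · simp [intCast_def]
      · intro b _ hb
        simp [hb]
      · simp
    · simp [hsu]
  · unfold nm
    rw [Finset.sum_mul]
    refine Finset.sum_congr rfl fun e _ => ?_
    rw [intCast_def, single_mul_single]
    simp

/-- the test for divisible designs -/
theorem test' {q : ℕ} [NeZero q] (hq : 2 < q) {T : Type} [Fintype T] [DecidableEq T]
    (A : T × ZMod q → T × ZMod q → ℤ) (N : ℤ) (R : T → T → ℤ)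
    (hA : ∀ x z, ∑ y, A x y * A z y = (if x = z then N else 0) + R x.1 z.1)
    (hinv : ∀ (s t : T) (i j c : ZMod q), A (s, i + c) (t, j + c) = A (s, i) (t, j))
    (hT : Odd (Fintype.card T)) {r : ℕ} (hr : r.Prime) {j : ℕ} (hj : (r : ZMod q) ^ j = -1)
    {a : ℕ} (ha : Odd a) {u : ℤ} (hu : ¬ (r : ℤ) ∣ u) (hN : N = (r : ℤ) ^ a * u) : False := by
  obtain ⟨b, hb⟩ := det_mod (N : AddMonoidAlgebra ℤ (ZMod q)) (nm q)
    (Matrix.of (fun (s u : T) => (R s u : AddMonoidAlgebra ℤ (ZMod q))))
  rw [← mat_mul' A N R hA hinv, Matrix.det_mul, Matrix.det_transpose] at hb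
  have h1 : ((mat A).map (st ℤ q)).det = st ℤ q (mat A).det := by
    rw [RingHom.map_det]
    rfl
  rw [h1] at hb
  obtain ⟨s, hs⟩ : Odd (a * Fintype.card T) := ha.mul hT
  have hr' : Prime (r : ℤ) := Nat.prime_iff_prime_int.1 hr
  have hu' : ¬ (r : ℤ) ∣ u ^ Fintype.card T := fun h => hu (hr'.dvd_of_dvd_pow h)
  apply descent hr hq hj hu' s ((1 - single 1 1) * (mat A).det)
  have h2 : (1 - single 1 1) * (mat A).det * st ℤ q ((1 - single 1 1) * (mat A).det) =
      ff q * ((mat A).det * st ℤ q (mat A).det) := by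
    rw [map_mul, ff]
    ring
  rw [h2, hb, hN]
  have h3 : ff q * nm q = 0 := by
    rw [ff, mul_right_comm, one_sub_mul_nm, zero_mul]
  rw [mul_add, ← mul_assoc, h3, zero_mul, add_zero, ← hs, zsmul_eq_mul, pow_mul]
  push_cast
  ring

/-- the test for functions on a group `Q` of odd order -/
theorem test_group {Q : Type} [Group Q] [Fintype Q] [DecidableEq Q] (f : Q → ℤ) (N : ℤ)
    (ν : Q → ℤ) (hf : ∀ x z : Q, ∑ y, f (x * y⁻¹) * f (z * y⁻¹) =
      (if x = z then N else 0) + ν (x * z⁻¹)) (hodd : Odd (Fintype.card Q)) {q r : ℕ}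
    (hq : q.Prime) (g : Q) (hg : orderOf g = q)
    (hν : ∀ x z : Q, ∀ i : ℕ, ν (x * g ^ i * z⁻¹) = ν (x * z⁻¹))
    (hr : r.Prime) {j : ℕ} (hj : (r : ZMod q) ^ j = -1) {a : ℕ} (ha : Odd a) {u : ℤ}
    (hu : ¬ (r : ℤ) ∣ u) (hN : N = (r : ℤ) ^ a * u) : False := by
  classical
  have hqf : Fact q.Prime := ⟨hq⟩
  have : NeZero q := ⟨hq.ne_zero⟩
  have hqG : q ∣ Fintype.card Q := hg ▸ orderOf_dvd_card
  have hq2 : 2 < q := by
    have h1 : q ≠ 2 := by
      rintro rfl
      exact (Nat.not_even_iff_odd.2 hodd) (even_iff_two_dvd.2 hqG)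
    have := hq.two_le
    omega
  have hgq : g ^ q = 1 := hg ▸ pow_orderOf_eq_one g
  set H := Subgroup.zpowers g with hH
  let T := Q ⧸ H
  have hTfin : Fintype T := Fintype.ofFinite T
  let pw : ZMod q → Q := fun i => g ^ i.val
  have hpw : ∀ i c : ZMod q, pw (i + c) = pw i * pw c := by
    intro i c
    simp only [pw]
    have h := pow_mod_orderOf g (i.val + c.val)
    rw [hg] at h
    rw [ZMod.val_add, ← pow_add, h]
  let φ : T × ZMod q → Q := fun p => p.1.out * pw p.2
  have hpwH : ∀ i, pw i ∈ H := fun i => Subgroup.pow_mem _ (Subgroup.mem_zpowers g) _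
  have hφ : Function.Bijective φ := by
    constructor
    · rintro ⟨t, i⟩ ⟨t', i'⟩ h
      simp only [φ] at h
      have h1 : (QuotientGroup.mk (t.out * pw i) : T) = QuotientGroup.mk (t'.out * pw i') := by
        rw [h]
      rw [QuotientGroup.mk_mul_of_mem _ (hpwH i), QuotientGroup.mk_mul_of_mem _ (hpwH i')] at h1
      have h2 : t = t' := by
        rw [← QuotientGroup.out_eq' t, ← QuotientGroup.out_eq' t']
        exact h1
      subst h2
      have h3 : g ^ i.val = g ^ i'.val := mul_left_cancel h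
      have h4 : i.val = i'.val :=
        pow_injOn_Iio_orderOf (by rw [Set.mem_Iio, hg]; exact ZMod.val_lt i)
          (by rw [Set.mem_Iio, hg]; exact ZMod.val_lt i') h3
      rw [ZMod.val_injective q h4]
    · intro y
      have h1 : ((QuotientGroup.mk y : T).out)⁻¹ * y ∈ H :=
        QuotientGroup.eq.1 (QuotientGroup.out_eq' (QuotientGroup.mk y : T))
      rw [hH, mem_zpowers_iff_mem_range_orderOf, Finset.mem_image] at h1
      obtain ⟨n, hn, hn'⟩ := h1
      rw [Finset.mem_range, hg] at hn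
      refine ⟨(QuotientGroup.mk y, (n : ZMod q)), ?_⟩
      simp only [φ, pw]
      rw [ZMod.val_cast_of_lt hn, hn', mul_inv_cancel_left]
  have hcard : Fintype.card Q = Fintype.card T * q := by
    rw [← Fintype.card_of_bijective hφ, Fintype.card_prod, ZMod.card]
  have hTodd : Odd (Fintype.card T) := by
    rw [hcard] at hodd
    exact (Nat.odd_mul.1 hodd).1
  refine test' hq2 (fun p p' => f (φ p * (φ p')⁻¹)) N (fun s u => ν (s.out * u.out⁻¹)) ?_ ?_
    hTodd hr hj ha hu hN
  · intro x z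
    rw [Function.Bijective.sum_comp hφ (fun y => f (φ x * y⁻¹) * f (φ z * y⁻¹)), hf]
    simp only [hφ.1.eq_iff]
    congr 1
    have h1 : ∀ i : ℕ, ∀ x z : Q, ν (x * g ^ i * (z * g ^ 0)⁻¹) = ν (x * z⁻¹) := by
      intro i x z
      rw [pow_zero, mul_one, hν]
    simp only [φ, pw]
    have h2 : x.1.out * g ^ (x.2.val) * (z.1.out * g ^ (z.2.val))⁻¹ =
        x.1.out * g ^ (x.2.val + z.2.val * (q - 1)) * (z.1.out)⁻¹ := by
      rw [mul_inv_rev, ← mul_assoc, pow_add, ← mul_assoc]
      congr 2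
      have h3 : g ^ (z.2.val) * g ^ (z.2.val * (q - 1)) = 1 := by
        rw [← pow_add]
        have h4 : z.2.val + z.2.val * (q - 1) = q * z.2.val := by
          obtain ⟨q', rfl⟩ : ∃ q', q = q' + 1 := ⟨q - 1, by omega⟩
          simp only [Nat.add_sub_cancel]
          ring
        rw [h4, pow_mul, hgq, one_pow]
      exact (eq_inv_of_mul_eq_one_right h3).symm
    rw [h2, hν]
  · intro s t i i' c
    simp only [φ, hpw]
    congr 1
    group

section
variable {G : Type} [Group G] [Fintype G] [DecidableEq G]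

/-- the test for relative difference sets in groups with a normal Sylow 2-subgroup -/
theorem rds_closed (N K : Subgroup G) [N.Normal] [K.Normal] (hK2 : ∃ s, Nat.card K = 2 ^ s)
    (hKo : Odd K.index) (D : Finset G) (lam : ℕ) (h0 : ∀ g ∈ N, g ≠ 1 → rep D g = 0)
    (h1 : ∀ g, g ∉ N → rep D g = lam) {q r j a u : ℕ} (hq : q.Prime) (hq2 : 2 < q)
    (hqN : q ∣ Nat.card N) (hr : r.Prime) (hj : (r : ZMod q) ^ j = -1)
    (ha : Odd a) (hu : ¬ r ∣ u) (hk : D.card = r ^ a * u) : False := by
  classical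
  have hqf : Fact q.Prime := ⟨hq⟩
  obtain ⟨⟨g₀, hgN⟩, hg₀⟩ := exists_prime_orderOf_dvd_card' q hqN
  rw [Subgroup.orderOf_mk] at hg₀
  have hQf : Fintype (G ⧸ K) := Fintype.ofFinite _
  set π : G →* G ⧸ K := QuotientGroup.mk' K with hπdef
  have hπ : Function.Surjective π := QuotientGroup.mk'_surjective K
  let f : G ⧸ K → ℤ := fun x => ∑ d ∈ D, if π d = x then 1 else 0
  let F : G ⧸ K → ℤ := fun c => ∑ g : G, if π g = c then (1 : ℤ) else 0
  let P : G ⧸ K → ℤ := fun c => ∑ g : G, if (π g = c ∧ g ∈ N) then (1 : ℤ) else 0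
  have hF : ∀ c, F c = F 1 := by
    intro c
    obtain ⟨n, hn⟩ := hπ c
    refine (Fintype.sum_equiv (Equiv.mulRight n) _ _ fun g => ?_).symm
    have h1 : (π (g * n) = c) ↔ π g = 1 := by rw [map_mul, hn, mul_eq_right]
    simp only [Equiv.coe_mulRight, h1]
  have hP : ∀ n ∈ N, ∀ c, P (c * π n) = P c := by
    intro n hn c
    refine (Fintype.sum_equiv (Equiv.mulRight n) _ _ fun g => ?_).symm
    have h1 : (π (g * n) = c * π n) ↔ π g = c := by rw [map_mul, mul_left_inj]
    have h2 : g * n ∈ N ↔ g ∈ N := N.mul_mem_cancel_right hn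
    simp only [Equiv.coe_mulRight, h1, h2]
  have hpairs : ∀ c, (∑ g : G, if π g = c then (rep D g : ℤ) else 0) =
      ∑ p ∈ D ×ˢ D, if π (p.1 * p.2⁻¹) = c then (1 : ℤ) else 0 := by
    intro c
    have e1 : ∀ g : G, (if π g = c then (rep D g : ℤ) else 0) =
        ∑ p ∈ D ×ˢ D, if p.1 * p.2⁻¹ = g then (if π g = c then (1 : ℤ) else 0) else 0 := by
      intro g
      rw [← Finset.sum_filter, Finset.sum_const, rep]
      split_ifs <;> simp
    simp only [e1]
    rw [Finset.sum_comm]
    refine Finset.sum_congr rfl fun p _ => ?_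
    rw [Finset.sum_ite_eq]
    simp
  have hval : ∀ c, (∑ g : G, if π g = c then (rep D g : ℤ) else 0) =
      (if c = 1 then (D.card : ℤ) else 0) + (lam * F c - lam * P c) := by
    intro c
    have e1 : ∀ g : G, (rep D g : ℤ) =
        (if g = 1 then (D.card : ℤ) else 0) + lam - (if g ∈ N then (lam : ℤ) else 0) := by
      intro g
      by_cases hg : g = 1
      · subst hg
        rw [if_pos rfl, if_pos N.one_mem, rep_one]
        ring
      · rw [if_neg hg]
        by_cases hgN : g ∈ N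
        · rw [if_pos hgN, h0 g hgN hg]
          simp
        · rw [if_neg hgN, h1 g hgN]
          ring
    simp only [e1]
    have e2 : (if c = 1 then (D.card : ℤ) else 0) = ∑ g : G, if π g = c then
        (if g = 1 then (D.card : ℤ) else 0) else 0 := by
      rw [Finset.sum_eq_single (1 : G)]
      · rw [map_one, if_pos rfl]
        simp only [eq_comm]
      · intro g _ hg
        rw [if_neg hg, ite_self]
      · intro h1
        exact absurd (Finset.mem_univ _) h1
    rw [e2]
    simp only [F, P]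
    rw [Finset.mul_sum, Finset.mul_sum, ← Finset.sum_sub_distrib, ← Finset.sum_add_distrib]
    refine Finset.sum_congr rfl fun g _ => ?_
    by_cases hc : π g = c
    · by_cases hgN : g ∈ N
      · simp only [hc, hgN, if_true, and_self]
        ring
      · simp only [hc, hgN, if_true, if_false, and_false]
        ring
    · simp only [hc, if_false, false_and]
      ring
  have hff : ∀ x z : G ⧸ K, ∑ y, f (x * y⁻¹) * f (z * y⁻¹) =
      ∑ p ∈ D ×ˢ D, if π (p.1 * p.2⁻¹) = x * z⁻¹ then (1 : ℤ) else 0 := by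
    intro x z
    have e1 : ∀ y, f (x * y⁻¹) * f (z * y⁻¹) = ∑ p ∈ D ×ˢ D,
        if y = (π p.2)⁻¹ * z then (if π (p.1 * p.2⁻¹) = x * z⁻¹ then (1 : ℤ) else 0) else 0 := by
      intro y
      simp only [f]
      rw [Finset.sum_mul_sum, Finset.sum_product]
      refine Finset.sum_congr rfl fun d₁ _ => Finset.sum_congr rfl fun d₂ _ => ?_
      have h2 : (π d₂ = z * y⁻¹) ↔ y = (π d₂)⁻¹ * z := by
        rw [eq_mul_inv_iff_mul_eq, eq_inv_mul_iff_mul_eq]
      by_cases hy : y = (π d₂)⁻¹ * z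
      · have h3 : (π d₁ = x * y⁻¹) ↔ π (d₁ * d₂⁻¹) = x * z⁻¹ := by
          rw [hy, map_mul, map_inv, mul_inv_rev, inv_inv, ← mul_assoc, mul_inv_eq_iff_eq_mul]
        rw [if_pos hy, if_pos (h2.2 hy), mul_one]
        simp only [h3]
      · rw [if_neg hy, if_neg (fun h => hy (h2.1 h)), mul_zero]
    simp only [e1]
    rw [Finset.sum_comm]
    refine Finset.sum_congr rfl fun p _ => ?_
    rw [Finset.sum_ite_eq']
    simp
  have hg1 : π g₀ ≠ 1 := by
    intro h
    have h2 : g₀ ∈ K := by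
      rwa [hπdef, QuotientGroup.mk'_apply, QuotientGroup.eq_one_iff] at h
    have h3 : orderOf (⟨g₀, h2⟩ : K) ∣ Nat.card K := orderOf_dvd_natCard _
    rw [Subgroup.orderOf_mk, hg₀] at h3
    obtain ⟨s, hs⟩ := hK2
    rw [hs] at h3
    have h4 := (Nat.prime_dvd_prime_iff_eq hq Nat.prime_two).1 (hq.dvd_of_dvd_pow h3)
    omega
  have hord : orderOf (π g₀) = q := by
    refine orderOf_eq_prime ?_ hg1
    rw [← map_pow, ← hg₀, pow_orderOf_eq_one, map_one]
  refine test_group (Q := G ⧸ K) f (D.card : ℤ) (fun c => lam * F 1 - lam * P c) ?_ ?_ hq (π g₀)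
    hord ?_ hr hj ha (u := u) (by exact_mod_cast hu) (by rw [hk]; push_cast; ring)
  · intro x z
    rw [hff, ← hpairs, hval, hF (x * z⁻¹)]
    simp only [mul_inv_eq_one]
  · rw [← Nat.card_eq_fintype_card]
    exact hKo
  · intro x z i
    obtain ⟨z', rfl⟩ := hπ z
    have h2 : x * (π g₀) ^ i * (π z')⁻¹ = x * (π z')⁻¹ * π (z' * g₀ ^ i * z'⁻¹) := by
      simp only [map_mul, map_inv, map_pow]
      group
    rw [h2, hP _ (Subgroup.Normal.conj_mem inferInstance _ (N.pow_mem hgN i) z')]

end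

section
open Finset

/-- a property of `n` which is excluded by a prime `q ∣ n - 1` and a prime `r` that is not a square modulo `q` and divides `n` to an odd power -/
def ExO (P : ℕ → Prop) : Prop :=
  ∀ n : ℕ, 2 ≤ n → P n → ∀ q r j a u : ℕ, q.Prime → 2 < q → q ∣ n - 1 → r.Prime →
    (r : ZMod q) ^ j = -1 → Odd a → ¬ r ∣ u → n = r ^ a * u → False

/-- a difference set with the Singer parameters -/
def IsSinger {Q : Type} [Group Q] [Fintype Q] [DecidableEq Q] (E : Finset Q) (n m : ℕ) : Prop :=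
  Fintype.card Q * (n - 1) = n ^ m - 1 ∧ E.card * (n - 1) = n ^ (m - 1) - 1 ∧
    ∀ g : Q, g ≠ 1 →
      ((E ×ˢ E).filter (fun p : Q × Q => p.1 * p.2⁻¹ = g)).card * (n - 1) = n ^ (m - 2) - 1

/-- the difference set `E` lifts to `G` -/
def LiftsTo {Q : Type} [Group Q] [Fintype Q] [DecidableEq Q] (E : Finset Q) (n m : ℕ)
    (G : Type) [Group G] [Fintype G] [DecidableEq G] : Prop :=
  ∃ (π : G →* Q) (D : Finset G), Function.Surjective π ∧ Nat.card π.ker = n - 1 ∧
    D.image π = Eᶜ ∧ Set.InjOn π D ∧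
    ∀ g : G, π g ≠ 1 → ((D ×ˢ D).filter (fun p : G × G => p.1 * p.2⁻¹ = g)).card = n ^ (m - 2)

theorem lift_data {Q : Type} [Group Q] [Fintype Q] [DecidableEq Q] {E : Finset Q} {n m : ℕ}
    {G : Type} [Group G] [Fintype G] [DecidableEq G] (hn : 2 ≤ n) (hm : 2 ≤ m)
    (hE : IsSinger E n m) (h : LiftsTo E n m G) :
    ∃ (N : Subgroup G) (D : Finset G), N.Normal ∧ Fintype.card G = n ^ m - 1 ∧
      Nat.card N = n - 1 ∧ D.card = n ^ (m - 1) ∧ (∀ g ∈ N, g ≠ 1 → rep D g = 0) ∧
      ∀ g, g ∉ N → rep D g = n ^ (m - 2) := by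
  obtain ⟨π, D, hπ, hker, him, hinj, hrep⟩ := h
  refine ⟨π.ker, D, inferInstance, ?_, hker, ?_, ?_, ?_⟩
  · have h1 := π.ker.card_mul_index
    rw [Subgroup.index_ker, MonoidHom.range_eq_top.2 hπ, Subgroup.card_top, hker,
      Nat.card_eq_fintype_card, Nat.card_eq_fintype_card] at h1
    rw [← h1, mul_comm, hE.1]
  · have h1 : D.card = Fintype.card Q - E.card := by
      rw [← card_compl, ← him, card_image_of_injOn hinj]
    have h2 : D.card * (n - 1) = n ^ (m - 1) * (n - 1) := by
      rw [h1, Nat.sub_mul, hE.1, hE.2.1, Nat.mul_sub, mul_one, ← pow_succ]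
      have e : m - 1 + 1 = m := by omega
      rw [e]
      have h3 : 1 ≤ n ^ (m - 1) := Nat.one_le_pow _ _ (by omega)
      omega
    exact Nat.eq_of_mul_eq_mul_right (by omega) h2
  · intro g hg hg1
    unfold rep
    rw [card_eq_zero, filter_eq_empty_iff]
    rintro ⟨x, y⟩ hxy he
    rw [mem_product] at hxy
    apply hg1
    have h1 : π x = π y := by
      have h2 : π (x * y⁻¹) = 1 := by
        simp only at he
        rw [he]
        exact hg
      rw [map_mul, map_inv, mul_inv_eq_one] at h2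
      exact h2
    have h2 : x = y := hinj hxy.1 hxy.2 h1
    simp only at he
    rw [← he, h2, mul_inv_cancel]
  · intro g hg
    exact hrep g hg

/-- a difference set with the Singer parameters, which lifts to a group with a normal Sylow
2-subgroup -/
def Liftable (n m : ℕ) : Prop :=
  ∃ (Q : Type) (_ : Group Q) (_ : Fintype Q) (_ : DecidableEq Q) (E : Finset Q)
    (G : Type) (_ : Group G) (_ : Fintype G) (_ : DecidableEq G),
    (∃ K : Subgroup G, K.Normal ∧ (∃ s, Nat.card K = 2 ^ s) ∧ Odd K.index) ∧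
    IsSinger E n m ∧ LiftsTo E n m G

theorem exO_lift : ExO (fun n => ∃ m, Even m ∧ 4 ≤ m ∧ Liftable n m) := by
  rintro n hn ⟨m, hm, hm4, Q, _, _, _, E, G, _, _, _, ⟨K, hK, hK2, hKo⟩, hE, hL⟩ q r j a u hq hq2
    hqn hr hj ha hu hnu
  obtain ⟨N, D, hN, hG, hNc, hD, h0, h1⟩ := lift_data hn (by omega) hE hL
  have hodd : Odd (m - 1) := by
    obtain ⟨c, hc⟩ := hm
    exact ⟨c - 1, by omega⟩
  refine rds_closed N K hK2 hKo D (n ^ (m - 2)) h0 h1 hq hq2 (by rw [hNc]; exact hqn) hr hj
    (ha.mul hodd) (u := u ^ (m - 1)) ?_ ?_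
  · intro h4
    exact hu (hr.dvd_of_dvd_pow h4)
  · rw [hD, hnu, mul_pow, ← pow_mul]

end

end Pool.Agent.Run7.h823.SG
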