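import Pool.Agent.H771R2.SingerDS
import Pool.Agent.N24.RW.Clo
import Pool.Agent.Run7.h823.SG.Lift

set_option autoImplicit false
set_option linter.unusedSectionVars false

/-!
# Difference sets with Singer parameters: pronull sets of integral vectors

The integral vectors `c` such that an integer near `ℓ(c)` is the order of a difference set with Singer parameters form a pronull set.
-/

namespace Pool.Agent.Run7.h823.SG

open Finset
open Pool.Agent.H771R2.Dens (cnt Per cnt_le_card cnt_add Big big_ap exists_exp_small per_ne per_exact)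
open Pool.Agent.H771R2.SingerDS (HasSinger odd_geom exists_nonres)
open Pool.Agent.H771R2.Lander (no_difference_set)
open Pool.Agent.N24.RW (ProNull)

theorem per_dvd {p : ℕ → Prop} {M D : ℕ} {δ : ℝ} (h : Per p M δ) (hD : M ∣ D) : (cnt p D : ℝ) ≤ δ * D := by
  obtain ⟨-, hp, hc⟩ := h
  obtain ⟨k, rfl⟩ := hD
  rw [cnt_add hp]
  push_cast
  have hk : (0 : ℝ) ≤ k := Nat.cast_nonneg k
  nlinarith [mul_le_mul_of_nonneg_left hc hk]

/-- The criterion in one dimension: a set of integers without members `n ≡ c_q` modulo `q` divisible exactly once by `r`, for all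
primes `q` with `Q q` and all primes `r` with `R q r`. -/
theorem crit1 (S : ℤ → Prop) (Q : ℕ → Prop) (c : ℕ → ℕ) (R : ℕ → ℕ → Prop)
    (hQ : Big Q) (hR : ∀ q, q.Prime → Q q → Big (R q))
    (hS : ∀ n : ℤ, S n → ∀ q, q.Prime → Q q → (n : ZMod q) = (c q : ZMod q) → ∀ r, r.Prime → R q r → (r : ℤ) ∣ n →
      ¬ (r : ℤ) ^ 2 ∣ n → False) (M : ℕ) (hM : 0 < M) (ε : ℝ) (hε : 0 < ε) :
    ∃ D : ℕ, 0 < D ∧ D.Coprime M ∧ (((fun n : ℤ => (n : ZMod D)) '' {n | S n}).ncard : ℝ) ≤ ε * D := by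
  classical
  obtain ⟨F, hF, hFε⟩ := exists_exp_small (hQ.large M) (ε := ε / 4) (by positivity)
  have hcardF : (0 : ℝ) < (F.card : ℝ) + 1 := by positivity
  have h1 : ∀ q ∈ F, ∃ P : Finset ℕ, (∀ r ∈ P, r.Prime ∧ R q r ∧ M < r) ∧
      Real.exp (-(∑ r ∈ P, 1 / (r : ℝ)) / 2) ≤ ε / 4 / (F.card + 1) := fun q hq =>
    exists_exp_small ((hR q (hF q hq).1 (hF q hq).2.1).large M) (by positivity)
  choose! P hP hPε using h1
  have hA : Per (fun n => ∀ q ∈ F, n % q ≠ c q % q) (∏ q ∈ F, q)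
      (∏ q ∈ F, Real.exp (-(1 / (q : ℝ)))) :=
    Per.forall F (fun q n => n % q ≠ c q % q) (fun q => q) _
      (fun q hq => per_ne (hF q hq).1.pos _) (fun q _ => (Real.exp_pos _).le)
      (fun q hq q' hq' h => (Nat.coprime_primes (hF q hq).1 (hF q' hq').1).2 h)
  have hA' : (∏ q ∈ F, Real.exp (-(1 / (q : ℝ)))) ≤ ε / 4 := by
    rw [← Real.exp_sum, sum_neg_distrib]
    refine le_trans ?_ hFε
    rw [Real.exp_le_exp]
    have : 0 ≤ ∑ q ∈ F, 1 / (q : ℝ) := sum_nonneg fun q _ => by positivity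
    linarith
  have hB : ∀ q ∈ F, Per (fun n => ∀ r ∈ P q, ¬ (r ∣ n ∧ ¬ r ^ 2 ∣ n)) (∏ r ∈ P q, r ^ 2)
      (∏ r ∈ P q, Real.exp (-(1 / (2 * (r : ℝ))))) := fun q hq =>
    Per.forall (P q) (fun r n => ¬ (r ∣ n ∧ ¬ r ^ 2 ∣ n)) (fun r => r ^ 2) _
      (fun r hr => per_exact (hP q hq r hr).1) (fun r _ => (Real.exp_pos _).le)
      (fun r hr r' hr' h =>
        ((Nat.coprime_primes (hP q hq r hr).1 (hP q hq r' hr').1).2 h).pow 2 2)
  have hB' : ∀ q ∈ F, (∏ r ∈ P q, Real.exp (-(1 / (2 * (r : ℝ))))) ≤ ε / 4 / (F.card + 1) := by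
    intro q hq
    refine le_trans (le_of_eq ?_) (hPε q hq)
    rw [← Real.exp_sum, sum_neg_distrib]
    congr 1
    rw [neg_div, sum_div]
    congr 1
    refine sum_congr rfl fun r _ => ?_
    rw [one_div, one_div, mul_inv, mul_comm, div_eq_mul_inv]
  obtain ⟨D, hD⟩ : ∃ D : ℕ, D = (∏ q ∈ F, q) * ∏ q ∈ F, ∏ r ∈ P q, r ^ 2 := ⟨_, rfl⟩
  have hD0 : 0 < D := by
    rw [hD]
    refine Nat.mul_pos (prod_pos fun q hq => (hF q hq).1.pos) (prod_pos fun q hq => prod_pos fun r hr => ?_)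
    have := (hP q hq r hr).1.pos
    positivity
  have hDc : D.Coprime M := by
    rw [hD]
    refine Nat.Coprime.mul_left (Nat.Coprime.prod_left fun q hq => ?_)
      (Nat.Coprime.prod_left fun q hq => Nat.Coprime.prod_left fun r hr => Nat.Coprime.pow_left 2 ?_)
    · exact ((hF q hq).1.coprime_iff_not_dvd).2 fun h => absurd (Nat.le_of_dvd hM h) (not_le.2 (hF q hq).2.2)
    · exact ((hP q hq r hr).1.coprime_iff_not_dvd).2 fun h =>
        absurd (Nat.le_of_dvd hM h) (not_le.2 (hP q hq r hr).2.2)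
  have hd1 : ∀ q ∈ F, q ∣ D := fun q hq => by
    rw [hD]
    exact Dvd.dvd.mul_right (dvd_prod_of_mem _ hq) _
  have hd2 : ∀ q ∈ F, (∏ r ∈ P q, r ^ 2) ∣ D := fun q hq => by
    rw [hD]
    exact Dvd.dvd.mul_left (dvd_prod_of_mem (fun q => ∏ r ∈ P q, r ^ 2) hq) _
  have hd3 : ∀ q ∈ F, ∀ r ∈ P q, r ^ 2 ∣ D := fun q hq r hr =>
    (dvd_prod_of_mem (fun r => r ^ 2) hr).trans (hd2 q hq)
  have : NeZero D := ⟨hD0.ne'⟩
  refine ⟨D, hD0, hDc, ?_⟩
  have key : ((fun n : ℤ => (n : ZMod D)) '' {n | S n}).ncard ≤ cnt (fun n => ∀ q ∈ F, n % q ≠ c q % q) D +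
      ∑ q ∈ F, cnt (fun n => ∀ r ∈ P q, ¬ (r ∣ n ∧ ¬ r ^ 2 ∣ n)) D := by
    have h2 : ((fun n : ℤ => (n : ZMod D)) '' {n | S n}).ncard ≤ ((range D).filter (fun n => ∀ q ∈ F, n % q ≠ c q % q) ∪
        F.biUnion (fun q => (range D).filter
          (fun n => ∀ r ∈ P q, ¬ (r ∣ n ∧ ¬ r ^ 2 ∣ n)))).card := by
      rw [← Set.ncard_coe_finset]
      refine Set.ncard_le_ncard_of_injOn (fun x : ZMod D => x.val) ?_ ((ZMod.val_injective D).injOn) (Finset.finite_toSet _)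
      rintro _ ⟨n, hn, rfl⟩
      simp only
      obtain ⟨k, hk⟩ : ∃ k : ℕ, k = ((n : ℤ) : ZMod D).val := ⟨_, rfl⟩
      rw [← hk]
      have hkD : k < D := by rw [hk]; exact ZMod.val_lt _
      have hkn : (D : ℤ) ∣ n - k := by
        rw [← ZMod.intCast_zmod_eq_zero_iff_dvd]
        push_cast
        rw [hk, ZMod.natCast_zmod_val, sub_self]
      rw [mem_coe, mem_union, mem_filter, mem_range, mem_biUnion]
      by_cases h3 : ∀ q ∈ F, k % q ≠ c q % q
      · exact Or.inl ⟨hkD, h3⟩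
      · push Not at h3
        obtain ⟨q, hq, h4⟩ := h3
        refine Or.inr ⟨q, hq, ?_⟩
        rw [mem_filter, mem_range]
        refine ⟨hkD, fun r hr h5 => ?_⟩
        have e1 : ((q : ℕ) : ℤ) ∣ n - k := (Int.natCast_dvd_natCast.2 (hd1 q hq)).trans hkn
        have e2 : ((r : ℕ) : ℤ) ^ 2 ∣ n - k := by
          refine dvd_trans ?_ hkn
          exact_mod_cast Int.natCast_dvd_natCast.2 (hd3 q hq r hr)
        refine hS n hn q (hF q hq).1 (hF q hq).2.1 ?_ r (hP q hq r hr).1 (hP q hq r hr).2.1 ?_ ?_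
        · have e3 : ((n : ℤ) : ZMod q) = ((k : ℤ) : ZMod q) := by
            rw [← sub_eq_zero, ← Int.cast_sub, ZMod.intCast_zmod_eq_zero_iff_dvd]
            exact e1
          rw [e3, Int.cast_natCast]
          exact (ZMod.natCast_eq_natCast_iff' _ _ _).2 h4
        · have e3 : (r : ℤ) ∣ n - k := (Dvd.intro_left _ (by ring : (r : ℤ) * r = (r : ℤ) ^ 2)).trans e2
          have e4 : (r : ℤ) ∣ k := Int.natCast_dvd_natCast.2 h5.1
          have := dvd_add e3 e4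
          rwa [sub_add_cancel] at this
        · intro h6
          apply h5.2
          have e3 : (r : ℤ) ^ 2 ∣ k := by
            have := dvd_sub h6 e2
            rwa [sub_sub_cancel] at this
          exact_mod_cast e3
    refine h2.trans ((card_union_le _ _).trans ?_)
    refine add_le_add (le_of_eq ?_) (card_biUnion_le.trans (sum_le_sum fun q _ => le_of_eq ?_))
    · unfold cnt
      congr
    · unfold cnt
      congr
  have h2 : (((fun n : ℤ => (n : ZMod D)) '' {n | S n}).ncard : ℝ) ≤ (cnt (fun n => ∀ q ∈ F, n % q ≠ c q % q) D : ℝ) +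
      ∑ q ∈ F, (cnt (fun n => ∀ r ∈ P q, ¬ (r ∣ n ∧ ¬ r ^ 2 ∣ n)) D : ℝ) := by
    exact_mod_cast key
  have h3 := per_dvd hA (D := D) (by rw [hD]; exact Dvd.intro _ rfl)
  have h4 : ∑ q ∈ F, (cnt (fun n => ∀ r ∈ P q, ¬ (r ∣ n ∧ ¬ r ^ 2 ∣ n)) D : ℝ) ≤
      ∑ q ∈ F, (ε / 4 / (F.card + 1) * D) := by
    refine sum_le_sum fun q hq => (per_dvd (hB q hq) (hd2 q hq)).trans ?_
    exact mul_le_mul_of_nonneg_right (hB' q hq) (Nat.cast_nonneg (α := ℝ) D)
  rw [sum_const, nsmul_eq_mul] at h4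
  have h5 := mul_le_mul_of_nonneg_right hA' (Nat.cast_nonneg (α := ℝ) D)
  have h6 : (F.card : ℝ) * (ε / 4 / (F.card + 1) * D) ≤ ε / 4 * D := by
    have : (F.card : ℝ) * (ε / 4 / (F.card + 1) * D) =
        (ε / 4 * D) * (F.card / (F.card + 1)) := by field_simp
    rw [this]
    apply mul_le_of_le_one_right (by positivity)
    rw [div_le_one hcardF]
    linarith
  have h7 : 0 ≤ ε * D := by positivity
  linarith

/-- Sets of integers that are pronull, evaluated at affine forms. -/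
theorem affine {ι : Type} [Fintype ι] {S : ℤ → Prop}
    (hS : ∀ M : ℕ, 0 < M → ∀ ε : ℝ, 0 < ε →
      ∃ D : ℕ, 0 < D ∧ D.Coprime M ∧ (((fun n : ℤ => (n : ZMod D)) '' {n | S n}).ncard : ℝ) ≤ ε * D)
    (lam : ι → ℤ) (hl : lam ≠ 0) (b : ℤ) : ProNull {c : ι → ℤ | S ((∑ j, lam j * c j) + b)} := by
  classical
  intro M hM ε hε
  obtain ⟨j₀, hj⟩ : ∃ j, lam j ≠ 0 := by
    by_contra h
    push Not at h
    exact hl (funext h)
  obtain ⟨D, hD, hc, hb⟩ := hS (M * (lam j₀).natAbs) (Nat.mul_pos hM (Int.natAbs_pos.2 hj)) ε hε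
  have : NeZero D := ⟨hD.ne'⟩
  refine ⟨D, hD, Nat.Coprime.coprime_mul_right_right hc, ?_⟩
  have hc2 : D.Coprime (lam j₀).natAbs := Nat.Coprime.coprime_mul_left_right hc
  have hu : IsUnit ((lam j₀ : ℤ) : ZMod D) := by
    have h0 : IsUnit (((lam j₀).natAbs : ℕ) : ZMod D) := (ZMod.isUnit_iff_coprime _ _).2 hc2.symm
    rcases Int.natAbs_eq (lam j₀) with h | h
    · rw [h, Int.cast_natCast]
      exact h0
    · rw [h, Int.cast_neg, Int.cast_natCast]
      exact h0.neg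
  let L : (ι → ZMod D) →+ ZMod D :=
    { toFun := fun ρ => ∑ j, (lam j : ZMod D) * ρ j
      map_zero' := by simp
      map_add' := fun x y => by simp [mul_add, sum_add_distrib] }
  have hL : Function.Surjective L := by
    intro y
    obtain ⟨u, hu⟩ := hu
    refine ⟨fun j => if j = j₀ then (u⁻¹ : (ZMod D)ˣ) * y else 0, ?_⟩
    change ∑ j, (lam j : ZMod D) * (if j = j₀ then (u⁻¹ : (ZMod D)ˣ) * y else 0) = y
    rw [sum_eq_single j₀]
    · rw [if_pos rfl, ← hu, Units.mul_inv_cancel_left]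
    · intro j _ hj
      rw [if_neg hj, mul_zero]
    · intro h
      exact absurd (mem_univ _) h
  obtain ⟨T, hT⟩ : ∃ T : Set (ZMod D), T = (fun n : ℤ => (n : ZMod D)) '' {n | S n} := ⟨_, rfl⟩
  rw [← hT] at hb
  have h1 := Pool.Agent.N24.RW.Clo.ncard_preimage L hL ((fun t => t - (b : ZMod D)) '' T)
  rw [Nat.card_eq_fintype_card, Nat.card_eq_fintype_card, ZMod.card, Fintype.card_fun, ZMod.card] at h1
  have h2 : ((fun (c : ι → ℤ) (i : ι) => (c i : ZMod D)) '' {c : ι → ℤ | S ((∑ j, lam j * c j) + b)}).ncard ≤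
      (L ⁻¹' ((fun t => t - (b : ZMod D)) '' T)).ncard := by
    refine Set.ncard_le_ncard ?_ (Set.toFinite _)
    rintro _ ⟨c, hc, rfl⟩
    refine ⟨(((∑ j, lam j * c j) + b : ℤ) : ZMod D), ?_, ?_⟩
    · rw [hT]
      exact ⟨_, hc, rfl⟩
    · change (((∑ j, lam j * c j) + b : ℤ) : ZMod D) - (b : ZMod D) = ∑ j, (lam j : ZMod D) * (c j : ZMod D)
      push_cast
      ring
  have h3 : ((fun t => t - (b : ZMod D)) '' T).ncard ≤ T.ncard := Set.ncard_image_le (Set.toFinite _)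
  have hD' : (0 : ℝ) < D := by exact_mod_cast hD
  have h4 : ((L ⁻¹' ((fun t => t - (b : ZMod D)) '' T)).ncard : ℝ) * D =
      (((fun t => t - (b : ZMod D)) '' T).ncard : ℝ) * (D : ℝ) ^ Fintype.card ι := by exact_mod_cast h1
  have h5 : (((fun t => t - (b : ZMod D)) '' T).ncard : ℝ) ≤ ε * D := (Nat.cast_le.2 h3).trans hb
  have h6 : ((L ⁻¹' ((fun t => t - (b : ZMod D)) '' T)).ncard : ℝ) ≤ ε * (D : ℝ) ^ Fintype.card ι := by
    have h7 : ((L ⁻¹' ((fun t => t - (b : ZMod D)) '' T)).ncard : ℝ) * D ≤ (ε * (D : ℝ) ^ Fintype.card ι) * D := by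
      rw [h4]
      calc (((fun t => t - (b : ZMod D)) '' T).ncard : ℝ) * (D : ℝ) ^ Fintype.card ι ≤ (ε * D) * (D : ℝ) ^ Fintype.card ι :=
            mul_le_mul_of_nonneg_right h5 (by positivity)
        _ = (ε * (D : ℝ) ^ Fintype.card ι) * D := by ring
    exact le_of_mul_le_mul_right h7 hD'
  exact (Nat.cast_le.2 h2).trans h6

end Pool.Agent.Run7.h823.SG
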