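import Pool.Agent.H177R2.SD.Brc
import Pool.Agent.H177R2.SD.QuadAux
import Pool.Agent.Run7.h823.SG.Lin
import Pool.Agent.Run7.h823.SG.Split

set_option autoImplicit false

/-!
# Difference sets with fixed `l`: the orders form a thin set
-/

namespace Pool.Agent.Run7.h823.SG

open Finset Polynomial
open Pool.Agent.H771R2.Dens (Big big_ap cnt)
open Pool.Agent.H771R2.SingerDS (exists_nonres)
open Pool.Agent.H177R2.SD (IsSymmetricDesign design_count brc_local)
open Pool.Agent.N891.LT (PQ)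

/-- some group of order `v`, abelian or not, contains a `(v, k, l)` difference set -/
def HasDS (v k l : ℕ) : Prop :=
  ∃ (G : Type) (_ : Group G) (_ : Fintype G) (_ : DecidableEq G) (D : Finset G),
    Fintype.card G = v ∧ D.card = k ∧
    ∀ g : G, g ≠ 1 → ((D ×ˢ D).filter (fun p : G × G => p.1 * p.2⁻¹ = g)).card = l

theorem design_of_ds {v k l : ℕ} (h : HasDS v k l) (hkv : k < v) : IsSymmetricDesign v k l := by
  classical
  obtain ⟨G, _, _, _, D, h1, h2, h3⟩ := h
  obtain ⟨e⟩ : Nonempty (G ≃ Fin v) := ⟨Fintype.equivFinOfCardEq h1⟩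
  refine ⟨hkv, k, fun i => univ.filter (fun x => e.symm x * e.symm i ∈ D), ?_, ?_, ?_⟩
  · intro i
    rw [← h2]
    refine Finset.card_bij (fun x _ => e.symm x * e.symm i) ?_ ?_ ?_
    · intro x hx
      exact (mem_filter.1 hx).2
    · intro x _ y _ hxy
      exact e.symm.injective (mul_right_cancel hxy)
    · intro d hd
      refine ⟨e (d * (e.symm i)⁻¹), ?_, ?_⟩
      · rw [mem_filter]
        refine ⟨mem_univ _, ?_⟩
        rw [Equiv.symm_apply_apply, inv_mul_cancel_right]
        exact hd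
      · rw [Equiv.symm_apply_apply, inv_mul_cancel_right]
  · intro x
    rw [← h2]
    refine Finset.card_bij (fun i _ => e.symm x * e.symm i) ?_ ?_ ?_
    · intro i hi
      have := (mem_filter.1 hi).2
      exact (mem_filter.1 this).2
    · intro i _ j _ hij
      exact e.symm.injective (mul_left_cancel hij)
    · intro d hd
      refine ⟨e ((e.symm x)⁻¹ * d), ?_, ?_⟩
      · rw [mem_filter, mem_filter]
        refine ⟨mem_univ _, mem_univ _, ?_⟩
        rw [Equiv.symm_apply_apply, mul_inv_cancel_left]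
        exact hd
      · rw [Equiv.symm_apply_apply, mul_inv_cancel_left]
  · intro x y hxy
    have hne : e.symm x * (e.symm y)⁻¹ ≠ 1 := by
      intro h
      exact hxy (e.symm.injective (mul_inv_eq_one.1 h))
    rw [← h3 _ hne]
    refine Finset.card_bij (fun i _ => (e.symm x * e.symm i, e.symm y * e.symm i)) ?_ ?_ ?_
    · intro i hi
      have h4 := (mem_filter.1 hi).2
      rw [mem_filter, mem_product]
      refine ⟨⟨(mem_filter.1 h4.1).2, (mem_filter.1 h4.2).2⟩, ?_⟩
      simp only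
      group
    · intro i _ j _ hij
      exact e.symm.injective (mul_left_cancel (Prod.mk.inj hij).1)
    · rintro ⟨a, b⟩ hab
      rw [mem_filter, mem_product] at hab
      obtain ⟨⟨ha, hb⟩, hq⟩ := hab
      simp only at ha hb hq
      have h5 : (e.symm x)⁻¹ * a = (e.symm y)⁻¹ * b := by
        have h6 : a = e.symm x * (e.symm y)⁻¹ * b := by rw [← hq]; group
        rw [h6]
        group
      refine ⟨e ((e.symm x)⁻¹ * a), ?_, ?_⟩
      · rw [mem_filter, mem_filter, mem_filter]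
        refine ⟨mem_univ _, ⟨mem_univ _, ?_⟩, ⟨mem_univ _, ?_⟩⟩
        · rw [Equiv.symm_apply_apply, mul_inv_cancel_left]
          exact ha
        · rw [Equiv.symm_apply_apply, h5, mul_inv_cancel_left]
          exact hb
      · rw [Equiv.symm_apply_apply, mul_inv_cancel_left, h5, mul_inv_cancel_left]

theorem big_of_not_summable {A : Set ℕ} (hA : ∀ p ∈ A, p.Prime) (h : ¬ Summable (A.indicator fun n : ℕ => (1 : ℝ) / n)) :
    Big (fun p => p ∈ A) := by
  classical
  intro B
  by_contra hcon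
  push Not at hcon
  apply h
  refine summable_of_sum_le (c := B) (fun n => Set.indicator_nonneg (fun _ _ => by positivity) _) (fun F => ?_)
  have h1 := hcon (F.filter (fun p => p ∈ A)) (fun p hp => ⟨hA p (mem_filter.1 hp).2, (mem_filter.1 hp).2⟩)
  refine le_trans (le_of_eq ?_) h1.le
  rw [sum_filter]
  exact sum_congr rfl fun n _ => by rw [Set.indicator_apply]

/-- the orders `k - l` of the difference sets with given `l` -/
def OrdDS (l : ℕ) (x : ℤ) : Prop := ∃ k v : ℕ, (k : ℤ) - l = x ∧ 2 ≤ k ∧ k + 2 ≤ v ∧ HasDS v k l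

theorem facts {v k l : ℕ} (h : HasDS v k l) (hk : 2 ≤ k) (hkv : k + 2 ≤ v) : 1 ≤ l ∧ l ≤ k ∧ l * (v - 1) = k * (k - 1) := by
  obtain ⟨-, -, -, -, h4⟩ := design_count (design_of_ds h (by omega))
  have h5 : 0 < k * (k - 1) := Nat.mul_pos (by omega) (by omega)
  refine ⟨Nat.pos_of_ne_zero ?_, ?_, h4⟩
  · rintro rfl
    rw [zero_mul] at h4
    omega
  · by_contra h6
    have h7 : k * (k - 1) < l * (v - 1) := Nat.mul_lt_mul'' (by omega) (by omega)
    omega

theorem thin_ds (l : ℕ) : Thin (OrdDS l) := by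
  classical
  obtain ⟨h, hh⟩ : ∃ h : ℤ[X], h = X ^ 2 - X + C (l : ℤ) := ⟨_, rfl⟩
  have hdeg : 0 < h.natDegree := by
    rw [hh]
    have : (X ^ 2 - X + C (l : ℤ) : ℤ[X]).natDegree = 2 := by compute_degree!
    rw [this]
    norm_num
  have hbig : Big (fun p => p ∈ PQ h 1) :=
    big_of_not_summable (fun p hp => hp.1) (PQm_diverges h hdeg one_pos)
  have hroot : ∀ q : ℕ, ∃ c : ℕ, q ∈ PQ h 1 → (((c : ZMod q) + l) ^ 2 - ((c : ZMod q) + l) + l = 0) := by
    intro q
    by_cases hq : q ∈ PQ h 1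
    · obtain ⟨hp, -, x, hx⟩ := hq
      have : Fact q.Prime := ⟨hp⟩
      refine ⟨(x - (l : ZMod q)).val, fun _ => ?_⟩
      rw [ZMod.natCast_zmod_val, sub_add_cancel]
      rw [hh] at hx
      simpa using hx
    · exact ⟨0, fun h => absurd h hq⟩
  choose c hc using hroot
  have hn : ∀ q : ℕ, ∃ b : ZMod q, q.Prime → 2 < q → IsUnit b ∧ b ^ ((q - 1) / 2) = -1 := by
    intro q
    by_cases hq : q.Prime ∧ 2 < q
    · obtain ⟨b, hb⟩ := exists_nonres hq.1 hq.2
      exact ⟨b, fun _ _ => hb⟩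
    · exact ⟨0, fun h h' => absurd ⟨h, h'⟩ hq⟩
  choose b hb using hn
  refine crit1 (OrdDS l) (fun q => q ∈ PQ h 1 ∧ l + 2 < q) c (fun q r => (r : ZMod q) = b q ∧ l + 2 < r) (hbig.large (l + 2)) ?_ ?_
  · intro q hq hq'
    have : NeZero q := ⟨hq.ne_zero⟩
    exact (big_ap (hb q hq (by omega)).1).large (l + 2)
  rintro x ⟨k, v, rfl, hk, hkv, hd⟩ q hq ⟨hqP, hql⟩ hqc r hr ⟨hrb, hrl⟩ h1 h2
  obtain ⟨hl1, hlk, hcount⟩ := facts hd hk hkv
  have e : ((k - l : ℕ) : ℤ) = (k : ℤ) - l := by push_cast [Nat.cast_sub hlk]; ring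
  rw [← e] at h1 h2
  have h1' : r ∣ k - l := by exact_mod_cast h1
  have h2' : ¬ r ^ 2 ∣ k - l := fun h => h2 (by exact_mod_cast h)
  have h3' : ¬ r ∣ l := fun h => absurd (Nat.le_of_dvd hl1 h) (by omega)
  obtain ⟨hv, -⟩ := brc_local (design_of_ds hd (by omega)) hk hkv hr (by omega) h1' h2' h3'
  have hqF : Fact q.Prime := ⟨hq⟩
  have hkq : (k : ZMod q) = (c q : ZMod q) + l := by
    have h4 : (((k : ℤ) - l : ℤ) : ZMod q) = (c q : ZMod q) := hqc
    push_cast at h4
    rw [← h4]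
    ring
  have hlq : ((l : ℕ) : ZMod q) ≠ 0 := by
    rw [Ne, ZMod.natCast_eq_zero_iff]
    exact fun h => absurd (Nat.le_of_dvd hl1 h) (by omega)
  have hvq : ((v : ℕ) : ZMod q) = 0 := by
    have h5 : ((l * (v - 1) : ℕ) : ZMod q) = ((k * (k - 1) : ℕ) : ZMod q) := by rw [hcount]
    rw [Nat.cast_mul, Nat.cast_mul, Nat.cast_sub (by omega), Nat.cast_sub (by omega), Nat.cast_one] at h5
    have h6 := hc q hqP
    rw [← hkq] at h6
    have h7 : ((l : ℕ) : ZMod q) * v = 0 := by linear_combination h5 + h6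
    exact (mul_eq_zero.1 h7).resolve_left hlq
  have hqv : q ∣ v := (ZMod.natCast_eq_zero_iff _ _).1 hvq
  obtain ⟨u, hu⟩ := h1'
  have hru : ¬ (r : ℤ) ∣ (u : ℤ) := by
    intro h4
    have h6 : r ∣ u := by exact_mod_cast h4
    apply h2'
    rw [hu, sq]
    exact Nat.mul_dvd_mul_left r h6
  obtain ⟨G, _, _, _, D, g1, g2, g3⟩ := hd
  refine Pool.Agent.H771R2.Lander.no_difference_set D k l g2 g3 (by rw [g1, Nat.odd_iff]; exact hv) hq (by rw [g1]; exact hqv) hr
    (j := (q - 1) / 2) (by rw [hrb]; exact (hb q hq (by omega)).2) (a := 1) odd_one hru ?_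
  rw [← e, hu]
  push_cast
  ring

open Classical in
/-- a thin set has natural density zero -/
theorem Thin.density {S : ℤ → Prop} (hS : Thin S) (a : ℤ) {ε : ℝ} (hε : 0 < ε) :
    ∃ X₀ : ℕ, ∀ X : ℕ, X₀ ≤ X → (((range X).filter (fun k : ℕ => S ((k : ℤ) + a))).card : ℝ) ≤ ε * X := by
  obtain ⟨D, hD, -, hb⟩ := hS 1 one_pos (ε / 2) (by linarith)
  have : NeZero D := ⟨hD.ne'⟩
  obtain ⟨T, hT⟩ : ∃ T : Set (ZMod D), T = (fun n : ℤ => (n : ZMod D)) '' {n | S n} := ⟨_, rfl⟩
  rw [← hT] at hb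
  have hD0 : (0 : ℝ) < D := by exact_mod_cast hD
  refine ⟨D, fun X hX => ?_⟩
  have h1 : ((range X).filter (fun k : ℕ => S ((k : ℤ) + a))).card ≤ T.toFinset.card * (X / D + 1) := by
    refine (Finset.card_le_mul_card_image_of_maps_to (f := fun k : ℕ => (((k : ℤ) + a : ℤ) : ZMod D)) (t := T.toFinset) ?_ (X / D + 1) ?_).trans
      (le_of_eq (mul_comm _ _))
    · intro k hk
      rw [Set.mem_toFinset, hT]
      exact ⟨_, (mem_filter.1 hk).2, rfl⟩
    · intro t _
      have h2 : ((range X).filter (fun k : ℕ => S ((k : ℤ) + a))).filter (fun k : ℕ => (((k : ℤ) + a : ℤ) : ZMod D) = t) ⊆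
          (range X).filter (fun k : ℕ => (k : ZMod D) = t - (a : ZMod D)) := by
        intro k hk
        rw [mem_filter, mem_filter] at hk
        rw [mem_filter]
        refine ⟨hk.1.1, ?_⟩
        rw [← hk.2]
        push_cast
        ring
      refine (card_le_card h2).trans ?_
      have h3 : (range X).filter (fun k : ℕ => (k : ZMod D) = t - (a : ZMod D)) ⊆
          (range X).filter (fun k : ℕ => k ≡ (t - (a : ZMod D)).val [MOD D]) := by
        intro k hk
        rw [mem_filter] at hk ⊢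
        refine ⟨hk.1, ?_⟩
        rw [← ZMod.natCast_eq_natCast_iff, ZMod.natCast_zmod_val]
        exact hk.2
      refine (card_le_card h3).trans ?_
      rw [← Nat.count_eq_card_filter_range, Nat.count_modEq_card X hD]
      split_ifs <;> omega
  have h2 : (T.toFinset.card : ℝ) ≤ ε / 2 * D := by
    rw [← Set.ncard_eq_toFinset_card']
    exact hb
  have h3 : ((X / D : ℕ) : ℝ) ≤ (X : ℝ) / D := Nat.cast_div_le
  calc (((range X).filter (fun k : ℕ => S ((k : ℤ) + a))).card : ℝ) ≤ (T.toFinset.card : ℝ) * ((X / D : ℕ) + 1) := by exact_mod_cast h1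
    _ ≤ (ε / 2 * D) * ((X : ℝ) / D + 1) := mul_le_mul h2 (by linarith) (by positivity) (by positivity)
    _ = ε / 2 * X + ε / 2 * D := by field_simp
    _ ≤ ε * X := by
        have h4 : (D : ℝ) ≤ X := by exact_mod_cast hX
        have : ε / 2 * D ≤ ε / 2 * X := mul_le_mul_of_nonneg_left h4 (by positivity)
        linarith

end Pool.Agent.Run7.h823.SG
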