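import Pool.Agent.Run7.h823.SG.Pro

set_option autoImplicit false
set_option linter.unusedSectionVars false

/-!
# Difference sets with Singer parameters: pronull sets of integral vectors, II

The exclusions are those of the starting files `Pool.Agent.N92.SD.Odd` and `Pool.Agent.N92.SD.Lift` (the proofs of `excluded'`,
`exists_zeta` are copied from there); the sieve is `crit1`.
-/

namespace Pool.Agent.Run7.h823.SG

open Finset
open Pool.Agent.H771R2.Dens (Big big_ap)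
open Pool.Agent.H771R2.SingerDS (HasSinger odd_geom exists_nonres)
open Pool.Agent.H771R2.Lander (no_difference_set)
open Pool.Agent.N24.RW (ProNull)

/-- the exclusion (copied from `Pool.Agent.N92.SD.Odd`) -/
theorem excluded' {n m w r j c n' : ℕ} (hm : Odd m) (hm3 : 3 ≤ m)
    (hn : 2 ≤ n) (h : HasSinger n m) (hw : w.Prime)
    (hwn : (n : ZMod w) ^ m = 1) (hwn1 : (n : ZMod w) ≠ 1) (hr : r.Prime)
    (hc : Odd c) (hn' : n = r ^ c * n') (hrn : ¬ r ∣ n') (hrw : (r : ZMod w) ^ j = -1) : False := by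
  obtain ⟨G, hG, hGf, hGd, D, h1, h2, h3⟩ := h
  have : Fact w.Prime := ⟨hw⟩
  have hn1 : 0 < n - 1 := by omega
  -- sizes
  have hgeom : ∀ j : ℕ, (∑ i ∈ Finset.range j, n ^ i) * (n - 1) = n ^ j - 1 := by
    intro j
    exact Nat.geomSum_eq (by omega) j ▸ (Nat.div_mul_cancel (by
      simpa using Nat.sub_dvd_pow_sub_pow n 1 j))
  have hv : Fintype.card G = ∑ i ∈ Finset.range m, n ^ i :=
    Nat.eq_of_mul_eq_mul_right hn1 (h1.trans (hgeom m).symm)
  have hk : D.card = ∑ i ∈ Finset.range (m - 1), n ^ i :=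
    Nat.eq_of_mul_eq_mul_right hn1 (h2.trans (hgeom (m - 1)).symm)
  have hlam : ∀ g : G, g ≠ 1 → ((D ×ˢ D).filter (fun p : G × G => p.1 * p.2⁻¹ = g)).card =
      ∑ i ∈ Finset.range (m - 2), n ^ i := fun g hg =>
    Nat.eq_of_mul_eq_mul_right hn1 ((h3 g hg).trans (hgeom (m - 2)).symm)
  -- `v` is odd
  have hodd : Odd (Fintype.card G) := by
    obtain ⟨j, rfl⟩ := hm
    rw [hv]
    exact odd_geom n j
  -- `w ∣ v`
  have hqv : w ∣ Fintype.card G := by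
    rw [← ZMod.natCast_eq_zero_iff]
    have h4 : ((Fintype.card G * (n - 1) : ℕ) : ZMod w) = 0 := by
      rw [h1, Nat.cast_sub (Nat.one_le_pow _ _ (by omega))]
      push_cast
      rw [hwn, sub_self]
    rw [Nat.cast_mul] at h4
    rcases mul_eq_zero.1 h4 with h5 | h5
    · exact h5
    · exfalso
      rw [Nat.cast_sub (by omega), sub_eq_zero] at h5
      exact hwn1 (by simpa using h5)
  have hru : ¬ (r : ℤ) ∣ ((n' : ℤ) ^ (m - 2)) := by
    intro h4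
    have h5 := (Nat.prime_iff_prime_int.1 hr).dvd_of_dvd_pow h4
    exact hrn (by exact_mod_cast h5)
  refine no_difference_set D _ _ hk hlam hodd hw hqv hr hrw (a := c * (m - 2)) ?_ hru ?_
  · refine hc.mul ?_
    obtain ⟨j, rfl⟩ := hm
    exact ⟨j - 1, by omega⟩
  · have h4 : m - 1 = (m - 2) + 1 := by omega
    rw [h4, Finset.sum_range_succ]
    push_cast
    rw [hn']
    push_cast
    ring

/-- an element of order `L` modulo `w` (copied from `Pool.Agent.N92.SD.Odd`) -/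
theorem exists_zeta (w L : ℕ) [Fact w.Prime] (h : L ∣ w - 1) :
    ∃ ζ : ZMod w, ∀ k : ℕ, ζ ^ k = 1 ↔ L ∣ k := by
  have hw := (Fact.out : w.Prime)
  have hw1 : w - 1 ≠ 0 := by
    have := hw.two_le
    omega
  obtain ⟨g, hg⟩ := IsCyclic.exists_ofOrder_eq_natCard (α := (ZMod w)ˣ)
  rw [Nat.card_eq_fintype_card, ZMod.card_units] at hg
  have hL : 0 < L := Nat.pos_of_dvd_of_pos h (by omega)
  have hd : (w - 1) / L ∣ w - 1 := Nat.div_dvd_of_dvd h
  have hd0 : (w - 1) / L ≠ 0 := by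
    have := Nat.div_mul_cancel h
    intro h0
    rw [h0, zero_mul] at this
    exact hw1 this.symm
  have ho : orderOf (g ^ ((w - 1) / L)) = L := by
    rw [orderOf_pow_of_dvd hd0 (hg ▸ hd), hg]
    exact Nat.div_div_self h hw1
  refine ⟨((g ^ ((w - 1) / L) : (ZMod w)ˣ) : ZMod w), fun k => ?_⟩
  rw [← Units.val_pow_eq_pow_val, Units.val_eq_one]
  conv_rhs => rw [← ho]
  exact orderOf_dvd_iff_pow_eq_one.symm

/-- the orders `n` such that there is a difference set with the Singer parameters of `(n ^ i, m)`, `m` odd and divisible by `l` -/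
def OddOrder (i l : ℕ) (x : ℤ) : Prop :=
  ∃ n : ℕ, (n : ℤ) = x ∧ 2 ≤ n ∧ ∃ m, Odd m ∧ 3 ≤ m ∧ l ∣ m ∧ HasSinger (n ^ i) m

/-- the orders `n` with the property `P (n ^ i)` -/
def ExOrder (P : ℕ → Prop) (i : ℕ) (x : ℤ) : Prop := ∃ n : ℕ, (n : ℤ) = x ∧ 2 ≤ n ∧ P (n ^ i)

theorem nonres : ∃ b : ∀ q : ℕ, ZMod q, ∀ q : ℕ, q.Prime → 2 < q → IsUnit (b q) ∧ b q ^ ((q - 1) / 2) = -1 := by
  have h : ∀ q : ℕ, ∃ b : ZMod q, q.Prime → 2 < q → IsUnit b ∧ b ^ ((q - 1) / 2) = -1 := by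
    intro q
    by_cases hq : q.Prime ∧ 2 < q
    · obtain ⟨b, hb⟩ := exists_nonres hq.1 hq.2
      exact ⟨b, fun _ _ => hb⟩
    · exact ⟨0, fun h h' => absurd ⟨h, h'⟩ hq⟩
  choose b hb using h
  exact ⟨b, hb⟩

theorem odd_null {ι : Type} [Fintype ι] (lam : ι → ℤ) (hlam : lam ≠ 0) (b₀ : ℤ) {i l : ℕ} (hi : Odd i) (hl : l.Prime) :
    ProNull {c : ι → ℤ | OddOrder i l ((∑ j, lam j * c j) + b₀)} := by
  classical
  have hi0 : 0 < i := hi.pos
  obtain ⟨d, hd⟩ : ∃ d : ℕ, d = i * l := ⟨_, rfl⟩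
  have hd0 : 0 < d := by rw [hd]; exact Nat.mul_pos hi0 hl.pos
  have : NeZero d := ⟨hd0.ne'⟩
  have hz : ∀ q : ℕ, ∃ z : ℕ, q.Prime → (q : ZMod d) = 1 → ∀ k : ℕ, (z : ZMod q) ^ k = 1 ↔ d ∣ k := by
    intro q
    by_cases hq : q.Prime ∧ (q : ZMod d) = 1
    · have hF : Fact q.Prime := ⟨hq.1⟩
      have hdq : d ∣ q - 1 := by
        rw [← ZMod.natCast_eq_zero_iff, Nat.cast_sub hq.1.one_lt.le, hq.2]
        simp
      obtain ⟨ζ, hζ⟩ := exists_zeta q d hdq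
      refine ⟨ζ.val, fun _ _ => ?_⟩
      rw [ZMod.natCast_zmod_val]
      exact hζ
    · exact ⟨0, fun h h' => absurd ⟨h, h'⟩ hq⟩
  choose c hc using hz
  obtain ⟨b, hb⟩ := nonres
  refine affine (crit1 (OddOrder i l) (fun q => (q : ZMod d) = 1 ∧ 2 < q) c (fun q r => (r : ZMod q) = b q)
    ((big_ap isUnit_one).large 2) ?_ ?_) lam hlam b₀
  · intro q hq hq'
    have : NeZero q := ⟨hq.ne_zero⟩
    exact big_ap (hb q hq hq'.2).1
  rintro x ⟨n, rfl, hn2, m, hm, hm3, hlm, hS⟩ q hq ⟨hq1, hq2⟩ hqc r hr hrb hr1' hr2'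
  have hF : Fact q.Prime := ⟨hq⟩
  have hnq : (n : ZMod q) = c q := by
    rw [← hqc]
    simp
  have hrn : r ∣ n := by exact_mod_cast hr1'
  have hrn2 : ¬ r ^ 2 ∣ n := fun h => hr2' (by exact_mod_cast h)
  obtain ⟨u, hu⟩ := hrn
  have hru : ¬ r ∣ u := by
    rintro ⟨u', hu'⟩
    exact hrn2 ⟨u', by rw [hu, hu']; ring⟩
  refine excluded' (n := n ^ i) (m := m) (w := q) (r := r) (j := (q - 1) / 2) (c := i)
    (n' := u ^ i) hm hm3 (hn2.trans (Nat.le_self_pow hi0.ne' n)) hS hq ?_ ?_ hr hi ?_ ?_ ?_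
  · push_cast
    rw [hnq, ← pow_mul, hc q hq hq1, hd]
    exact Nat.mul_dvd_mul_left i hlm
  · push_cast
    rw [hnq, Ne, hc q hq hq1, hd]
    intro h
    have h1 := Nat.le_of_dvd hi0 h
    have h2 := hl.two_le
    nlinarith
  · rw [hu, mul_pow]
  · exact fun h => hru (hr.dvd_of_dvd_pow h)
  · rw [hrb]
    exact (hb q hq hq2).2

theorem exO_null {ι : Type} [Fintype ι] {P : ℕ → Prop} (hX : ExO P) (lam : ι → ℤ) (hlam : lam ≠ 0) (b₀ : ℤ) {i : ℕ}
    (hi : Odd i) : ProNull {c : ι → ℤ | ExOrder P i ((∑ j, lam j * c j) + b₀)} := by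
  classical
  have hi0 : 0 < i := hi.pos
  obtain ⟨b, hb⟩ := nonres
  refine affine (crit1 (ExOrder P i) (fun q => (q : ZMod 1) = 1 ∧ 2 < q) (fun _ => 1) (fun q r => (r : ZMod q) = b q)
    ((big_ap isUnit_one).large 2) ?_ ?_) lam hlam b₀
  · intro q hq hq'
    have : NeZero q := ⟨hq.ne_zero⟩
    exact big_ap (hb q hq hq'.2).1
  rintro x ⟨n, rfl, hn2, hP⟩ q hq ⟨-, hq2⟩ hqc r hr hrb hr1' hr2'
  have hF : Fact q.Prime := ⟨hq⟩
  have hnq : (n : ZMod q) = 1 := by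
    have h1 : (((n : ℕ) : ℤ) : ZMod q) = 1 := by
      rw [hqc]
      simp
    rw [← h1]
    simp
  have hrn : r ∣ n := by exact_mod_cast hr1'
  have hrn2 : ¬ r ^ 2 ∣ n := fun h => hr2' (by exact_mod_cast h)
  obtain ⟨u, hu⟩ := hrn
  have hru : ¬ r ∣ u := by
    rintro ⟨u', hu'⟩
    exact hrn2 ⟨u', by rw [hu, hu']; ring⟩
  refine hX (n ^ i) (hn2.trans (Nat.le_self_pow hi0.ne' n)) hP q r ((q - 1) / 2) i (u ^ i)
    hq hq2 ?_ hr ?_ hi ?_ ?_
  · rw [← ZMod.natCast_eq_zero_iff, Nat.cast_sub (Nat.one_le_pow _ _ (by omega))]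
    push_cast
    rw [hnq, one_pow, sub_self]
  · rw [hrb]
    exact (hb q hq hq2).2
  · exact fun h => hru (hr.dvd_of_dvd_pow h)
  · rw [hu, mul_pow]

end Pool.Agent.Run7.h823.SG
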